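import Pool.Agent.Run7.h469.AB.P14cf73

/-!
# `c < C H (abc) ^ M` for all the integral combinations of two integers, and for linear recurrences

Let `C > 0` and `M > 1/3`. For all `(x, y)` in `[1, X]^2` with at most `L K^(4 + 2/(3 M) + ε) X^(2/(3 M) + ε)` exceptions (for `M ≥ 1`
this is a power less than `X^2` if `K = X^(2/7 - δ)`), ALL the admissible triples `(u, v, u + v)` where `u` and `v` are linearly
independent integral combinations of `x` and `y` with coefficients up to `K` satisfy `c < C H (abc) ^ M`. For at most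
`L S^2 Y^(2/(3 M) + ε)` pairs `(a, b)` (few of those in `[1, X]^2`, if `S` is bounded and `Y = X^(3 M - δ)`) there is a recurrence
`x_0 = a`, `x_1 = b`, `x_(n+2) = s x_(n+1) + t x_n` with `1 ≤ s, t ≤ S` and a member `x_(n+2) ≤ Y` such that the triple
`(t x_n, s x_(n+1), x_(n+2))` is coprime and violates this. The problem asks for `M = 1 + ε`.
-/

set_option autoImplicit false

namespace Pool.Agent.Results.MP_14cf73_nt.CombinationsAndRecurrences

open Finset MeasureTheory
open Run7.h469.Ab (euclidExceptions badIntervals combinationExceptions recurrenceExceptions)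
open Run7.h469.AB.P14cf73 (Good good_zero few)

/-- **Combinations and recurrences.** Let `C > 0`, `M > 1/3`. For all `ε > 0` there is `L` such that (1) for all `X, K ≥ 1` for at
most `L K^(4 + 2/(3 M) + ε) X^(2/(3 M) + ε)` of the `(x, y)` in `[1, X]^2` there are linearly independent integral combinations
`u, v > 0` of `x, y` with coefficients up to `K` such that `(u, v, u + v)` is an admissible triple violating
`c < C H (abc) ^ M`, and (2) for all `S` and `Y ≥ 1` for at most `L S^2 Y^(2/(3 M) + ε)` pairs `(a, b)` of positive integers some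
admissible triple `(t x_n, s x_(n+1), x_(n+2))` with `x_(n+2) ≤ Y`, `1 ≤ s, t ≤ S`, of the recurrence
`x_(n+2) = s x_(n+1) + t x_n` starting with `a, b` violates it. -/
theorem result : ∀ C M : ℝ, 0 < C → 1 / 3 < M → ∀ ε : ℝ, 0 < ε → ∃ L : ℝ,
    (∀ X K : ℕ, 1 ≤ X → 1 ≤ K →
      ((combinationExceptions (Good C M) X K).card : ℝ) ≤ L * (K : ℝ) ^ (4 + 2 / (3 * M) + ε : ℝ) * (X : ℝ) ^ (2 / (3 * M) + ε : ℝ)) ∧
    ∀ S Y : ℕ, 1 ≤ Y →
      ((recurrenceExceptions (Good C M) S Y).card : ℝ) ≤ L * (S : ℝ) ^ 2 * (Y : ℝ) ^ (2 / (3 * M) + ε : ℝ) := by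
  intro C M hC hM ε hε
  have hM0 : 0 < M := by linarith
  obtain ⟨L₁, h₁⟩ := Run7.h469.Ab.combinations (Good C M) (few C M hC hM0) ε hε
  obtain ⟨L₂, h₂⟩ := Run7.h469.Ab.recurrences (Good C M) (few C M hC hM0) ε hε
  refine ⟨max L₁ L₂, fun X K hX hK => ?_, fun S Y hY => ?_⟩
  · refine (h₁ X K hX hK).trans ?_
    gcongr
    exact le_max_left _ _
  · refine (h₂ S Y hY).trans ?_
    gcongr
    exact le_max_right _ _

end Pool.Agent.Results.MP_14cf73_nt.CombinationsAndRecurrences
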