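import Pool.Agent.Run7.h469.AB.P14cf73

/-!
# `c < C H (abc) ^ M` along Euclid's algorithm, for all `M > 1/3`

Let `C > 0` and `M > 1/3`. For all pairs `(a, b)` in `[1, X]^2` with at most `K X^2 H^(1/(3 M) - 1 + ε)` exceptions, ALL the coprime
pairs `(u, v)`, `max u v ≥ H`, of the subtractive Euclidean algorithm of `(a, b)` satisfy
`u + v < C H (u v (u + v)) ^ M`; the problem asks for `M = 1 + ε`. For coprime `a, b` these are the pairs on the path from `(a, b)`
to the root of the Calkin-Wilf tree. There are at most `6 X^2 / (u v)` pairs in `[1, X]^2` above a given pair `(u, v)`, the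
exceptional pairs up to `H` number only `O(H^(2/(3 M) + ε))`, by the starting files, and the chains `(u, v), (u - v, v), …` with
a small `v` are treated as a whole.
-/

set_option autoImplicit false

namespace Pool.Agent.Results.MP_14cf73_nt.EuclideanAlgorithm

open Finset MeasureTheory
open Run7.h469.Ab (euclidExceptions badIntervals combinationExceptions recurrenceExceptions)
open Run7.h469.AB.P14cf73 (Good good_zero few)

/-- **Euclid's algorithm.** For `C > 0`, `M > 1/3` and `ε > 0` there is `K` such that for all `X` and `H ≥ 1` for at most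
`K X^2 H^(1/(3 M) - 1 + ε)` of the pairs `(a, b)` in `[1, X]^2` some coprime pair `(u, v)`, `max u v ≥ H`, of the subtractive
Euclidean algorithm of `(a, b)` violates `u + v < C H (u v (u + v)) ^ M`. -/
theorem result : ∀ C M : ℝ, 0 < C → 1 / 3 < M → ∀ ε : ℝ, 0 < ε → ∃ K : ℝ, ∀ X H : ℕ, 1 ≤ H →
    ((euclidExceptions (Good C M) X H).card : ℝ) ≤ K * (X : ℝ) ^ 2 * (H : ℝ) ^ (1 / (3 * M) - 1 + ε : ℝ) := by
  intro C M hC hM ε hε
  have hM0 : 0 < M := by linarith
  have hβ : 2 / (3 * M) < 2 := by
    rw [div_lt_iff₀ (by positivity)]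
    linarith
  obtain ⟨K, hK⟩ := Run7.h469.Ab.euclid hβ (Good C M) (few C M hC hM0) ε hε
  refine ⟨K, fun X H hH => ?_⟩
  have h := hK X H hH
  have e : 2 / (3 * M) / 2 - 1 + ε = 1 / (3 * M) - 1 + ε := by ring
  rwa [e] at h

end Pool.Agent.Results.MP_14cf73_nt.EuclideanAlgorithm
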