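import Pool.Agent.Run7.h469.AB.P14cf73

/-!
# `c < C H (abc) ^ M` in the Farey intervals around a real number, for all `M > 1/3`

Let `C > 0` and `M > 1/3`. For all real `α > 0` outside a set of Hausdorff dimension at most `2 / (3 M + 1) < 1`, and for almost all
`α` with respect to every measure of larger dimension (in particular for almost all real `α`), ALL but finitely many Farey
intervals `[q / s, p / r]`, `p s - q r = 1`, around `α` have the property that the four admissible triples `(p, q, p + q)`,
`(r, s, r + s)`, `(p, r, p + r)`, `(q, s, q + s)` satisfy `c < C H (abc) ^ M`; the problem asks for `M = 1 + ε`, where the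
dimension is less than `1/2`. These intervals are those on the path to `α` in the Stern-Brocot tree.
-/

set_option autoImplicit false

namespace Pool.Agent.Results.MP_14cf73_nt.FareyIntervals

open Finset MeasureTheory
open Run7.h469.Ab (euclidExceptions badIntervals combinationExceptions recurrenceExceptions)
open Run7.h469.AB.P14cf73 (Good good_zero few)

/-- **Farey intervals.** Let `C > 0`, `M > 1/3`. For all `α > 0` outside a set of Hausdorff dimension at most `2 / (3 M + 1)`, and for
almost all `α > 0` for all measures of a larger dimension `m`, there are only finitely many `q / s ≤ α ≤ p / r`, `p s - q r = 1`,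
such that one of the triples `(p, q, p + q)`, `(r, s, r + s)`, `(p, r, p + r)`, `(q, s, q + s)` violates `c < C H (abc) ^ M`. -/
theorem result : ∀ C M : ℝ, 0 < C → 1 / 3 < M → 
    (∃ E : Set ℝ, dimH E ≤ ENNReal.ofReal (2 / (3 * M + 1)) ∧ ∀ α : ℝ, 0 < α → α ∉ E → (badIntervals (Good C M) α).Finite) ∧
    ∀ (μ : Measure ℝ) (C₀ m : ℝ), 2 / (3 * M + 1) < m →
      (∀ (x r : ℝ), 0 < r → μ (Metric.closedBall x r) ≤ ENNReal.ofReal (C₀ * r ^ m)) →
      ∀ᵐ α ∂μ, 0 < α → (badIntervals (Good C M) α).Finite := by
  intro C M hC hM
  have hM0 : 0 < M := by linarith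
  have h := Run7.h469.Ab.farey (by positivity) (Good C M) (good_zero C M) (few C M hC hM0)
  have e : 2 * (2 / (3 * M)) / (2 + 2 / (3 * M)) = 2 / (3 * M + 1) := by
    field_simp
  rw [e] at h
  exact h

end Pool.Agent.Results.MP_14cf73_nt.FareyIntervals
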