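import Pool.Agent.Run7.h214.HP.Asm
import Pool.Agent.Run7.h214.HP.TRI
import Pool.Agent.Run7.h214.HP.LOG
import Pool.Agent.Run7.h214.HP.CONST
import Pool.Agent.Run7.h214.HP.FIN
import Pool.Agent.Run7.h973.HP.PAIR

/-!
# Admissible triples with a small `H (abc)`: the constant `4.25`

`H (n) = γ (n) / (log γ (n)) ^ ω (n)`. For every `K ≤ 17/4` there are infinitely many admissible
triples with `c > H exp (K log H / log log H)`, `H = max (H (abc), e ^ e)`. The exponents of the
primes `p ≤ 35 Y` are chosen in `{0, 1, 2}` from a product distribution which depends on `p / Y`;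
a Blichfeldt type average inside the classes modulo `2 ^ m` replaces the symmetric difference of
two random halves of the primes.
-/

set_option autoImplicit false

namespace Pool.Agent.Results.MP_14cf73_nt.PigeonholeBlocks

/-- `γ(n)`, the product of the primes dividing `n` -/
def radical (n : ℕ) : ℕ := ∏ p ∈ n.primeFactors, p

/-- `ω(n)`, the number of primes dividing `n` -/
def omega (n : ℕ) : ℕ := n.primeFactors.card

/-- `H(n) = γ(n) / (log γ(n)) ^ ω(n)` -/
noncomputable def H (n : ℕ) : ℝ := (radical n : ℝ) / Real.log (radical n : ℝ) ^ omega n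

/-- `max (H(n), e ^ e)` -/
noncomputable def H' (n : ℕ) : ℝ := max (H n) (Real.exp (Real.exp 1))

/-- **The constant `4.25`.** For every `K ≤ 17/4` and every `X` there is an admissible triple with
`c > X` and `c > H exp (K log H / log log H)` where `H = max (H(abc), e ^ e)`. -/
theorem result (K : ℝ) (hK : K ≤ 17 / 4) (X : ℝ) :
    ∃ a b c : ℕ, 0 < a ∧ 0 < b ∧ a + b = c ∧ Nat.Coprime a b ∧ X < c ∧
      H' (a * b * c) * Real.exp (K * Real.log (H' (a * b * c)) /
        Real.log (Real.log (H' (a * b * c)))) < c :=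
  Pool.Agent.Run7.h214.HP.t_FIN (Pool.Agent.Run7.h214.HP.source
    Pool.Agent.Run7.h973.HP.t_PAIR Pool.Agent.Run7.h214.HP.t_TRI
    Pool.Agent.Run7.h214.HP.t_LOG Pool.Agent.Run7.h214.HP.t_CONST) K hK X

end Pool.Agent.Results.MP_14cf73_nt.PigeonholeBlocks
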